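import Pool.Agent.W792.WA.Stm2
import Pool.Agent.W335.WAB.BaseJ

/-!
Project WA, part WA-J0: lower bound of the averaged imaginary part for the first level.
-/

set_option autoImplicit false

namespace Pool.Agent.W366.WA.J0

open MeasureTheory Filter Pool.Agent.W792.LL Pool.Agent.W792.WA Pool.Agent.W335.WAB.BaseJ
open scoped Topology

theorem main : Pool.Agent.W792.WA.S_J0 := by
  intro ψ hψ r d hr _
  obtain ⟨g, hg, hgE⟩ := gmin_exists d hr
  set c₀ : ℝ := 1 / r * (9 / 5 / (2 * (3 / 8 + 1 / r) + 1)) with hc₀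
  have hc₀p : 0 < c₀ := by positivity
  refine ⟨c₀ * g, by positivity, ?_⟩
  intro ρ hρ hS z hz
  have hzim : 0 < z.im := hz.2.2.1
  have hx : ∀ k, ((lap d k : ℂ) - z).im < 0 := by
    intro k
    simp
    exact hzim
  have hin : ∀ k, ∫ a, 1 / ((lap d k : ℂ) + a - z) ∂((lev ψ r).conv ρ) =
      Hf ψ r ρ ((lap d k : ℂ) - z) := by
    intro k
    rw [← conv_eq ψ r ρ (hx k)]
    congr 1
    funext a
    rw [add_sub_right_comm]
  have hjf : jf ((lev ψ r).conv ρ) (lap d) z = ∫ k, (Hf ψ r ρ ((lap d k : ℂ) - z)).im := by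
    unfold jf
    congr 1
    funext k
    rw [hin k]
  rw [hjf]
  have hlow : ∀ k, c₀ * bump d r z.re k ≤ (Hf ψ r ρ ((lap d k : ℂ) - z)).im := by
    intro k
    by_cases hk : |lap d k - z.re| ≤ r / 4
    · have h3 : c₀ ≤ (Hf ψ r ρ ((lap d k : ℂ) - z)).im := by
        refine Hf_im_lower hψ hr (hx k) ρ hS ?_ ?_
        · simpa using hk
        · simp
          exact hz.2.2.2
      have h4 := bump_le d hr z.re k
      nlinarith
    · push Not at hk
      have h5 : bump d r z.re k = 0 := by
        unfold bump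
        refine max_eq_left ?_
        have : 1 < 4 / r * |lap d k - z.re| := by
          have e : 4 / r * (r / 4) = 1 := by field_simp
          calc (1 : ℝ) = 4 / r * (r / 4) := e.symm
            _ < _ := mul_lt_mul_of_pos_left hk (by positivity)
        linarith
      rw [h5, mul_zero]
      exact Hf_im_nonneg hψ hr (hx k) ρ
  have hHc : Continuous fun k => Hf ψ r ρ ((lap d k : ℂ) - z) := by
    rw [continuous_iff_continuousAt]
    intro k₀
    rw [ContinuousAt, tendsto_iff_norm_sub_tendsto_zero]
    refine squeeze_zero (fun _ => norm_nonneg _)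
      (fun k => Hf_holder hψ hr (hx k) (hx k₀) ρ) ?_
    have h1 : Continuous fun k => 2 / r * Real.sqrt (2 / r *
        ‖((lap d k : ℂ) - z) - ((lap d k₀ : ℂ) - z)‖) := by fun_prop
    have h2 := h1.tendsto k₀
    simpa using h2
  have hFi := (Complex.continuous_im.comp hHc).integrable_of_hasCompactSupport (μ := volume)
    (HasCompactSupport.of_compactSpace _)
  have hbi := bump_int d r z.re
  have hmono := integral_mono (hbi.const_mul c₀) hFi hlow
  refine le_trans ?_ hmono
  rw [integral_const_mul]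
  exact mul_le_mul_of_nonneg_left (hgE z.re hz.1 hz.2.1) hc₀p.le

end Pool.Agent.W366.WA.J0
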