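import Pool.Agent.W558.WA.Stms
import Pool.Agent.W349.WD.Sum

/-!
# Part SUM of project AS: Artin-Schreier normal form of a sum
(helper366, after Pool.Agent.W349.WD.Sum)
-/

set_option autoImplicit false
set_option linter.unusedVariables false
set_option linter.unusedSimpArgs false
set_option linter.unusedSectionVars false

universe u

open Polynomial Pool.Agent.W558 Pool.Agent.W349.WD.Sum

namespace Pool.Agent.W366.WA.Sum

theorem main (hovp : WA_ovp.{u}) : WA_sum.{u} := by
  intro p _ k K _ _ _ _ R0 R T I ι _ _ _ _ M f n a h hN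
  classical
  obtain ⟨T', I', iT, iI, M', π, Θ, hOv, hΘ, hC⟩ := hovp k K R0 R T I ι M n
  let N : ι → I' → ℤ := fun j i' => ∑ i, Θ i' i * n j i
  let n' : I' → ℤ := fun i' => Finset.univ.inf' Finset.univ_nonempty (fun j => N j i')
  have hn' : ∀ j i', n' i' ≤ N j i' := fun j i' =>
    Finset.inf'_le (fun j => N j i') (Finset.mem_univ j)
  let e : ι → I' → ℕ := fun j i' => (N j i' - n' i').toNat
  have he : ∀ j i', (e j i' : ℤ) = N j i' - n' i' := fun j i' =>
    Int.toNat_of_nonneg (sub_nonneg.2 (hn' j i'))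
  let m : T' → ι → K := fun t' j => ∏ i', M'.x t' i' ^ e j i'
  have hm : ∀ t' j, m t' j ∈ M'.A t' := fun t' j =>
    (M'.A t').prod_mem fun i' _ => (M'.A t').pow_mem (M'.xA t' i') _
  have hh : ∀ t' j, h (π t') j ∈ M'.A t' := fun t' j => hOv.le t' (hN.hA (π t') j)
  let h' : T' → K := fun t' => ∑ j, m t' j * h (π t') j
  have hh' : ∀ t', h' t' ∈ M'.A t' := fun t' =>
    (M'.A t').sum_mem fun j _ => (M'.A t').mul_mem (hm t' j) (hh t' j)
  have hx : ∀ t' j, ∏ i, M.x (π t') i ^ n j i = ∏ i', M'.x t' i' ^ N j i' := by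
    intro t' j
    have h1 : ∀ i, M.x (π t') i ^ n j i = ∏ i', M'.x t' i' ^ (Θ i' i * n j i) := by
      intro i
      rw [hOv.x, ← Finset.prod_zpow]
      apply Finset.prod_congr rfl
      intro i' _
      rw [← zpow_mul]
    rw [Finset.prod_congr rfl fun i _ => h1 i, Finset.prod_comm]
    apply Finset.prod_congr rfl
    intro i' _
    rw [zpow_sum' (M'.x0 t' i')]
  have hxm : ∀ t' j, ∏ i, M.x (π t') i ^ n j i = (∏ i', M'.x t' i' ^ n' i') * m t' j := by
    intro t' j
    rw [hx, ← Finset.prod_mul_distrib]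
    apply Finset.prod_congr rfl
    intro i' _
    rw [← zpow_natCast, he, ← zpow_add₀ (M'.x0 t' i')]
    congr 1
    ring
  refine ⟨T', I', iT, iI, M', π, Θ, n', fun t' => ∑ j, a (π t') j, h', hOv, ⟨?_, hh', ?_, ?_⟩⟩
  · intro i'
    obtain ⟨j⟩ := (inferInstance : Nonempty ι)
    refine (hn' j i').trans (Finset.sum_nonpos fun i _ => ?_)
    exact mul_nonpos_of_nonneg_of_nonpos (hΘ i' i) (hN.n0 j i)
  · intro t'
    have h1 : ∀ j, f j = (a (π t') j ^ p - a (π t') j) +
        (∏ i', M'.x t' i' ^ n' i') * (m t' j * h (π t') j) := by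
      intro j
      rw [← mul_assoc, ← hxm]
      exact hN.eq (π t') j
    rw [Finset.sum_congr rfl fun j _ => h1 j, Finset.sum_add_distrib, ← Finset.mul_sum,
      Finset.sum_sub_distrib]
    congr 2
    exact (sum_pow_char p Finset.univ fun j => a (π t') j).symm
  · rintro t' κ _ _ φ' ⟨i0, hi0, hi0'⟩
    -- the minimal exponent
    obtain ⟨j0, hj0⟩ := exists_min
      (fun a b : ι => ∀ i', N a i' ≤ N b i' ∨ (M'.x t' i')⁻¹ ∈ M'.A t')
      (fun a b => hC a b t') (by
        intro a b c h1 h2 i'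
        rcases h1 i' with h3 | h3
        · rcases h2 i' with h4 | h4
          · exact Or.inl (h3.trans h4)
          · exact Or.inr h4
        · exact Or.inr h3)
    have hunit : (m t' j0)⁻¹ ∈ M'.A t' := by
      change (∏ i', M'.x t' i' ^ e j0 i')⁻¹ ∈ M'.A t'
      rw [← Finset.prod_inv_distrib]
      refine (M'.A t').prod_mem fun i' _ => ?_
      by_cases hi : (M'.x t' i')⁻¹ ∈ M'.A t'
      · rw [← inv_pow]
        exact (M'.A t').pow_mem hi _
      · have h1 : N j0 i' ≤ n' i' :=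
          Finset.le_inf' _ _ fun j _ => (hj0 j i').resolve_right hi
        have h2 : e j0 i' = 0 := by
          have := he j0 i'
          have := hn' j0 i'
          omega
        rw [h2, pow_zero, inv_one]
        exact (M'.A t').one_mem
    have hφm : φ' ⟨m t' j0, hm t' j0⟩ ≠ 0 := by
      intro h0
      have h1 : φ' ⟨m t' j0, hm t' j0⟩ * φ' ⟨(m t' j0)⁻¹, hunit⟩ = 1 := by
        rw [← map_mul, ← map_one φ']
        congr 1
        apply Subtype.ext
        change m t' j0 * (m t' j0)⁻¹ = 1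
        refine mul_inv_cancel₀ (Finset.prod_ne_zero_iff.2 fun i' _ => pow_ne_zero _ (M'.x0 t' i'))
      rw [h0, zero_mul] at h1
      exact zero_ne_one h1
    have hx0 : ¬ (M'.x t' i0)⁻¹ ∈ M'.A t' := by
      intro hi
      have h1 : φ' ⟨M'.x t' i0, M'.xA t' i0⟩ * φ' ⟨(M'.x t' i0)⁻¹, hi⟩ = 1 := by
        rw [← map_mul, ← map_one φ']
        congr 1
        apply Subtype.ext
        exact mul_inv_cancel₀ (M'.x0 t' i0)
      rw [hi0', zero_mul] at h1
      exact zero_ne_one h1
    have hNneg : N j0 i0 < 0 := by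
      have h1 : N j0 i0 ≤ n' i0 :=
        Finset.le_inf' _ _ fun j _ => (hj0 j i0).resolve_right hx0
      omega
    obtain ⟨i1, _, hi1⟩ := Finset.exists_lt_of_sum_lt (s := Finset.univ)
      (f := fun i => Θ i0 i * n j0 i) (g := fun _ => (0 : ℤ)) (by simpa using hNneg)
    have hn1 : n j0 i1 < 0 := by
      rcases lt_or_eq_of_le (hN.n0 j0 i1) with h1 | h1
      · exact h1
      · rw [h1, mul_zero] at hi1
        exact absurd hi1 (lt_irrefl _)
    have hΘ1 : 0 < Θ i0 i1 := by
      rcases lt_or_eq_of_le (hΘ i0 i1) with h1 | h1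
      · exact h1
      · rw [← h1, zero_mul] at hi1
        exact absurd hi1 (lt_irrefl _)
    have hzero : (φ'.comp (Subalgebra.inclusion (hOv.le t'))) ⟨M.x (π t') i1, M.xA (π t') i1⟩
        = 0 := by
      have h1 : (Subalgebra.inclusion (hOv.le t')) ⟨M.x (π t') i1, M.xA (π t') i1⟩ =
          ∏ i', (⟨M'.x t' i', M'.xA t' i'⟩ : M'.A t') ^ (Θ i' i1).toNat := by
        apply Subtype.ext
        change M.x (π t') i1 =
          (M'.A t').val (∏ i', (⟨M'.x t' i', M'.xA t' i'⟩ : M'.A t') ^ (Θ i' i1).toNat)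
        rw [map_prod, hOv.x]
        refine Finset.prod_congr rfl fun i' _ => ?_
        change M'.x t' i' ^ Θ i' i1 = M'.x t' i' ^ (Θ i' i1).toNat
        rw [← zpow_natCast, Int.toNat_of_nonneg (hΘ i' i1)]
      change φ' ((Subalgebra.inclusion (hOv.le t')) ⟨M.x (π t') i1, M.xA (π t') i1⟩) = 0
      rw [h1, map_prod]
      refine Finset.prod_eq_zero (Finset.mem_univ i0) ?_
      rw [map_pow, hi0', zero_pow (by omega)]
    obtain ⟨v, hv1, hv2⟩ := hN.ln (π t') κ (φ'.comp (Subalgebra.inclusion (hOv.le t'))) j0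
      ⟨i1, hn1, hzero⟩
    obtain ⟨v', hw1, hw2⟩ := hOv.lt t' κ φ' v
    refine ⟨v', ?_⟩
    have hmA : ∀ j, (⟨m t' j, hm t' j⟩ : M'.A t') =
        ∏ i', (⟨M'.x t' i', M'.xA t' i'⟩ : M'.A t') ^ e j i' := by
      intro j
      apply Subtype.ext
      change m t' j = (M'.A t').val (∏ i', (⟨M'.x t' i', M'.xA t' i'⟩ : M'.A t') ^ e j i')
      rw [map_prod]
      rfl
    have hDm : ∀ j, v'.D.D ⟨m t' j, hm t' j⟩ = φ' ⟨m t' j, hm t' j⟩ * ∑ i', (e j i' : κ) * v'.e i' := by
      intro j
      rw [hmA]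
      exact D_prod v' (M'.xA t') Finset.univ (e j)
    have hsum : (⟨h' t', hh' t'⟩ : M'.A t') =
        ∑ j, (⟨m t' j, hm t' j⟩ : M'.A t') * ⟨h (π t') j, hh t' j⟩ := by
      apply Subtype.ext
      change h' t' = (M'.A t').val (∑ j, (⟨m t' j, hm t' j⟩ : M'.A t') * ⟨h (π t') j, hh t' j⟩)
      rw [map_sum]
      rfl
    have hNe : ∀ j, ∑ i', (N j i' : κ) * v'.e i' = ∑ i, (n j i : κ) * v.e i := by
      intro j
      have h1 : ∀ i', (N j i' : κ) * v'.e i' = ∑ i, (n j i : κ) * ((Θ i' i : κ) * v'.e i') := by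
        intro i'
        change ((∑ i, Θ i' i * n j i : ℤ) : κ) * v'.e i' = _
        push_cast
        rw [Finset.sum_mul]
        apply Finset.sum_congr rfl
        intro i _
        ring
      rw [Finset.sum_congr rfl fun i' _ => h1 i', Finset.sum_comm]
      apply Finset.sum_congr rfl
      intro i _
      rw [← Finset.mul_sum, hw2 i]
    have hec : ∀ j, ∑ i', (e j i' : κ) * v'.e i' + ∑ i', (n' i' : κ) * v'.e i' =
        ∑ i', (N j i' : κ) * v'.e i' := by
      intro j
      rw [← Finset.sum_add_distrib]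
      apply Finset.sum_congr rfl
      intro i' _
      have h1 : ((e j i' : ℤ) : κ) = ((N j i' - n' i' : ℤ) : κ) := by rw [he]
      push_cast at h1
      rw [h1]
      ring
    have hom : om v' n' (hh' t') = ∑ j, φ' ⟨m t' j, hm t' j⟩ * om v (n j) (hN.hA (π t') j) := by
      unfold om
      rw [hsum, map_sum, map_sum, Finset.sum_mul, ← Finset.sum_add_distrib]
      apply Finset.sum_congr rfl
      intro j _
      rw [v'.D.leib, map_mul, hDm j, ← hNe j, ← hec j]
      have h1 : v'.D.D ⟨h (π t') j, hh t' j⟩ = v.D.D ⟨h (π t') j, hN.hA (π t') j⟩ :=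
        hw1 _ (hN.hA (π t') j)
      have h2 : (φ'.comp (Subalgebra.inclusion (hOv.le t'))) ⟨h (π t') j, hN.hA (π t') j⟩ =
          φ' ⟨h (π t') j, hh t' j⟩ := rfl
      rw [h1, h2]
      ring
    rw [hom, Finset.sum_eq_single j0]
    · exact mul_ne_zero hφm hv1
    · intro j _ hj
      rw [hv2 j hj, mul_zero]
    · intro h
      exact absurd (Finset.mem_univ _) h

end Pool.Agent.W366.WA.Sum
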